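import Mathlib
import Pool.Agent.Lib.MP_eaaecb_lc.Defs
import Pool.Agent.Lib.MP_eaaecb_lc.Order
import Pool.Agent.Lib.MP_eaaecb_lc.Successor

/-!
# Positive two-variable logic and monotone languages (problem MP_eaaecb_lc, Q1)

The definitions are in `Pool.Agent.Lib.MP_eaaecb_lc.Defs`, the proofs are in
`Pool.Agent.Lib.MP_eaaecb_lc.Order` (signature with the order only) and
`Pool.Agent.Lib.MP_eaaecb_lc.Successor` (signature with the order and the successor).
-/

namespace Pool.Agent.Results.MP_eaaecb_lc.PositiveFO2

open Pool.Agent.Lib.MP_eaaecb_lc

/-- For the signature with `≤, <` every monotone two-variable definable language is definable by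
a positive two-variable sentence, whatever the finite nonempty set of unary predicates; for the
signature with `≤, <, succ, nsucc` this fails. -/
theorem result :
    (∀ (S : Type) [Finite S] [Nonempty S] (L : Set (Word S)),
      MonotoneLang L → FO2 .order L → FO2Pos .order L) ∧
    (∃ (S : Type) (_ : Finite S) (_ : Nonempty S) (L : Set (Word S)),
      MonotoneLang L ∧ FO2 .orderSucc L ∧ ¬ FO2Pos .orderSucc L) :=
  ⟨fun _ _ _ L hm hd => order_case L hm hd,
    ZMod 3, inferInstance, inferInstance, theL, theL_monotone, theL_FO2, theL_not_pos⟩

end Pool.Agent.Results.MP_eaaecb_lc.PositiveFO2
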